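import Pool.Agent.Helper93.UX.Defs
import Pool.Agent.Helper24.UV.Win
import Pool.Agent.Helper80.UG.Avg

/-!
# UX, part (d): from the averaged count to the count (DX1)

`f u = σ (c - zc (Ico u (u + c sp T)))`, kernel `k s = X/(2π) qk 0 (X s)`: `∫ k s f (t + s) ds = σ (c - AW (t + HH))`.
-/

set_option autoImplicit false
open MeasureTheory Set Filter Topology
open Pool.Agent.Helper57.Zeta Pool.Agent.Helper57.LH Pool.Agent.Helper57.ED Pool.Agent.Helper54.LG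
open Pool.Agent.Helper93.UG (zc IsOrd sp Glong Gshort)
open Pool.Agent.Helper69.UG (pt NX XX NR NM WW near far)
open Pool.Agent.Helper69.UV (ww HH)
open Pool.Agent.Helper93.UX

namespace Pool.Agent.Helper80.UX

/-- D1 -/
def SmoothStep : Prop := ∀ {T X V ρ S M : ℝ} {q : ℕ} (_ : 16 ≤ T) (_ : 1 ≤ X) (_ : 1 ≤ V) (_ : 0 < ρ) (_ : ρ ≤ 1) (_ : 0 < S)
    (_ : 0 < M) (_ : 2 ≤ q) (f : ℝ → ℝ) (_ : Measurable f) (k : ℝ → ℝ) (_ : Measurable k) (_ : ∀ s, 0 ≤ k s)
    (_ : Integrable k) (_ : ∫ s, k s = 1) (_ : ∀ t, Integrable fun s => k s * f (t + s))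
    (_ : ∀ t, T ≤ t → t ≤ 2 * T → ∫ s in {s : ℝ | √T < |s|}, k s * |f (t + s)| ≤ ρ * V / 2)
    (_ : IntegrableOn (fun t => |f t| ^ (2 * q)) (Icc (T / 2) (3 * T)))
    (_ : ∫ t in Icc (T / 2) (3 * T), |f t| ^ (2 * q) ≤ M * S ^ (2 * q) * T)
    (G : Set ℝ) (_ : MeasurableSet G) (_ : G ⊆ Icc T (2 * T))
    (_ : ∀ t ∈ G, (1 + ρ) * V ≤ ∫ s, k s * f (t + s)) {p : ℝ} (_ : 0 < p) (_ : p ≤ 1)
    (_ : ENNReal.ofReal (p * T) ≤ volume G),
    ENNReal.ofReal ((ρ * V / (2 * S)) ^ ((q : ℝ) / (q - 1)) * (1 / (M + 1)) * p ^ ((2 * q - 1 : ℝ) / (2 * q - 2)) * T) ≤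
      volume {t : ℝ | T - √T ≤ t ∧ t ≤ 2 * T + √T ∧ V ≤ f t}

/-- the window that starts at `u` -/
private lemma win_eq (h u : ℝ) : Ico u (u + 2 * h) = Ico (u + h - h) (u + h + h) := by
  rw [add_sub_cancel_right, show u + h + h = u + 2 * h by ring]

private lemma zcm (h : ℝ) : Measurable fun u => (zc (Ico u (u + 2 * h)) : ℝ) := by
  have h1 := (Pool.Agent.Helper24.UG.zc_meas h).comp (measurable_add_const h)
  have h2 : (fun u => (zc (Ico u (u + 2 * h)) : ℝ)) = (fun t => (zc (Ico (t - h) (t + h)) : ℝ)) ∘ fun u => u + h := by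
    funext u
    simp only [Function.comp]
    rw [win_eq]
  rw [h2]
  exact h1

/-- the kernel -/
private noncomputable def kk (X s : ℝ) : ℝ := X / (2 * Real.pi) * qk 0 (X * s)

private lemma kk_nonneg {X : ℝ} (hX : 0 < X) (s : ℝ) : 0 ≤ kk X s := by
  have h1 := qk_zero_nonneg (X * s)
  have hpi := Real.pi_pos
  unfold kk
  positivity

private lemma kk_meas (X : ℝ) : Measurable (kk X) := by
  unfold kk
  exact ((qk_cont 0).measurable.comp (measurable_const_mul X)).const_mul _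

private lemma kk_win {X h : ℝ} (hX : 0 < X) (hh : 0 < h) (t : ℝ) :
    Integrable (fun s => kk X s * (zc (Ico (t + s) (t + s + 2 * h)) : ℝ)) ∧
    ∫ s, kk X s * (zc (Ico (t + s) (t + s + 2 * h)) : ℝ) =
      X / (2 * Real.pi) * ∫ w in (-h)..h, NX X (t + h + w) := by
  have h1 := Pool.Agent.Helper24.UV.window hX hh (t + h)
  have h2 : ∀ s, Ico (t + h + s - h) (t + h + s + h) = Ico (t + s) (t + s + 2 * h) := by
    intro s
    rw [show t + h + s - h = t + s by ring, show t + h + s + h = t + s + 2 * h by ring]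
  simp_rw [h2] at h1
  exact h1

private lemma kk_win_meas {X h : ℝ} (hX : 0 < X) (hh : 0 < h) :
    Measurable fun t => X / (2 * Real.pi) * ∫ w in (-h)..h, NX X (t + h + w) := by
  have h1 : (fun t => X / (2 * Real.pi) * ∫ w in (-h)..h, NX X (t + h + w)) =
      fun t => ∫ s, kk X s * (zc (Ico (t + s) (t + s + 2 * h)) : ℝ) := by
    funext t
    exact (kk_win hX hh t).2.symm
  rw [h1]
  have h2 : Measurable fun x : ℝ × ℝ => kk X x.2 * (zc (Ico (x.1 + x.2) (x.1 + x.2 + 2 * h)) : ℝ) := by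
    apply Measurable.mul
    · exact (kk_meas X).comp measurable_snd
    · exact (zcm h).comp (measurable_fst.add measurable_snd)
  exact (h2.stronglyMeasurable.integral_prod_right').measurable

/-- the far part -/
private lemma far_small {ρ : ℝ} (hρ : 0 < ρ) : ∃ T₀ : ℝ, ∀ T : ℝ, T₀ ≤ T → ∀ X h c σ : ℝ, 1 ≤ X → 0 ≤ h → h ≤ 1 →
    0 ≤ c → c ≤ Real.log T → (σ = 1 ∨ σ = -1) → ∀ t, T ≤ t → t ≤ 2 * T →
      ∫ s in {s : ℝ | √T < |s|}, kk X s * |σ * (c - (zc (Ico (t + s) (t + s + 2 * h)) : ℝ))| ≤ ρ := by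
  obtain ⟨Cz, hCz, hz⟩ := Pool.Agent.Helper24.UG.zc_triv
  obtain ⟨C2, hC2, hK⟩ := Pool.Agent.Helper80.UG.K_tail
  have hlim : ∀ᶠ T : ℝ in atTop, (16 + 16 * Cz * 8) * C2 * T ^ (-(3 / 16) : ℝ) < ρ := by
    have h1 : Tendsto (fun T : ℝ => (16 + 16 * Cz * 8) * C2 * T ^ (-(3 / 16) : ℝ)) atTop (𝓝 ((16 + 16 * Cz * 8) * C2 * 0)) :=
      (tendsto_rpow_neg_atTop (by norm_num)).const_mul _
    exact h1.eventually_lt_const (by rw [mul_zero]; exact hρ)
  obtain ⟨T4, hT4⟩ := hlim.exists_forall_of_atTop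
  refine ⟨max T4 16, ?_⟩
  intro T hT X h c σ hX hh0 hh1 hc0 hcT hσ t ht1 ht2
  rw [max_le_iff] at hT
  have hT0 : 0 < T := by linarith
  have hX0 : 0 < X := by linarith
  set P : ℝ := (16 + 16 * Cz * 8) * T ^ (1 / 16 : ℝ) with hP
  have hT16 : 1 ≤ T ^ (1 / 16 : ℝ) := Real.one_le_rpow (by linarith) (by norm_num)
  have hP0 : 0 ≤ P := by positivity
  have hbd : ∀ s, |σ * (c - (zc (Ico (t + s) (t + s + 2 * h)) : ℝ))| ≤ P * (4 + |s|) ^ (1 / 16 : ℝ) := by
    intro s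
    have hs0 := abs_nonneg s
    have h1 : |σ * (c - (zc (Ico (t + s) (t + s + 2 * h)) : ℝ))| = |c - (zc (Ico (t + s) (t + s + 2 * h)) : ℝ)| := by
      rw [abs_mul]
      rcases hσ with h | h <;> simp [h]
    have hz0 : (0 : ℝ) ≤ (zc (Ico (t + s) (t + s + 2 * h)) : ℝ) := Nat.cast_nonneg _
    have h2 : |c - (zc (Ico (t + s) (t + s + 2 * h)) : ℝ)| ≤ c + (zc (Ico (t + s) (t + s + 2 * h)) : ℝ) := by
      rw [abs_le]
      constructor <;> linarith
    have h3 := hz (t + s + h) h hh0 hh1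
    rw [← win_eq] at h3
    have h4 : Real.log (4 + |t + s + h|) ≤ 16 * (8 * T ^ (1 / 16 : ℝ) * (4 + |s|) ^ (1 / 16 : ℝ)) := by
      have h5 : 4 + |t + s + h| ≤ (8 * T) * (4 + |s|) := by
        have h6 : |t + s + h| ≤ t + |s| + h := by
          rw [abs_le]
          have := neg_abs_le s
          have := le_abs_self s
          constructor <;> linarith
        nlinarith
      calc Real.log (4 + |t + s + h|) ≤ Real.log ((8 * T) * (4 + |s|)) := Real.log_le_log (by positivity) h5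
        _ ≤ ((8 * T) * (4 + |s|)) ^ (1 / 16 : ℝ) / (1 / 16) := Real.log_le_rpow_div (by positivity) (by norm_num)
        _ = 16 * (8 ^ (1 / 16 : ℝ) * T ^ (1 / 16 : ℝ) * (4 + |s|) ^ (1 / 16 : ℝ)) := by
            rw [Real.mul_rpow (by positivity) (by positivity), Real.mul_rpow (by norm_num) hT0.le]
            ring
        _ ≤ 16 * (8 * T ^ (1 / 16 : ℝ) * (4 + |s|) ^ (1 / 16 : ℝ)) := by
            have h7 : (8 : ℝ) ^ (1 / 16 : ℝ) ≤ 8 := by
              calc (8 : ℝ) ^ (1 / 16 : ℝ) ≤ 8 ^ (1 : ℝ) := Real.rpow_le_rpow_of_exponent_le (by norm_num) (by norm_num)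
                _ = 8 := Real.rpow_one 8
            gcongr
    have h5 : c ≤ 16 * T ^ (1 / 16 : ℝ) := by
      calc c ≤ Real.log T := hcT
        _ ≤ T ^ (1 / 16 : ℝ) / (1 / 16) := Real.log_le_rpow_div hT0.le (by norm_num)
        _ = 16 * T ^ (1 / 16 : ℝ) := by ring
    have h6 : 1 ≤ (4 + |s|) ^ (1 / 16 : ℝ) := Real.one_le_rpow (by linarith) (by norm_num)
    have h7 : 16 * T ^ (1 / 16 : ℝ) ≤ 16 * T ^ (1 / 16 : ℝ) * (4 + |s|) ^ (1 / 16 : ℝ) :=
      le_mul_of_one_le_right (by positivity) h6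
    have h8 := mul_le_mul_of_nonneg_left h4 hCz.le
    rw [h1]
    calc |c - (zc (Ico (t + s) (t + s + 2 * h)) : ℝ)| ≤ 16 * T ^ (1 / 16 : ℝ) * (4 + |s|) ^ (1 / 16 : ℝ) +
          Cz * (16 * (8 * T ^ (1 / 16 : ℝ) * (4 + |s|) ^ (1 / 16 : ℝ))) := by linarith
      _ = P * (4 + |s|) ^ (1 / 16 : ℝ) := by
          rw [hP]
          ring
  have hB1 : 1 ≤ √T := Real.one_le_sqrt.2 (by linarith)
  have h1 := hK X (√T) P hX hB1 hP0 (fun s => ENNReal.ofReal |σ * (c - (zc (Ico (t + s) (t + s + 2 * h)) : ℝ))|)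
    (fun s => ENNReal.ofReal_le_ofReal (hbd s))
  have h2 : ∫⁻ s in {s : ℝ | √T < |s|}, ENNReal.ofReal (kk X s * |σ * (c - (zc (Ico (t + s) (t + s + 2 * h)) : ℝ))|) ≤
      ENNReal.ofReal (P * (C2 * √T ^ (-(1 / 2) : ℝ))) := by
    refine le_trans (le_of_eq ?_) h1
    refine lintegral_congr fun s => ?_
    rw [ENNReal.ofReal_mul (kk_nonneg hX0 s)]
    rfl
  have h3 : (0 : ℝ) ≤ P * (C2 * √T ^ (-(1 / 2) : ℝ)) := by positivity
  have h4 : ∫ s in {s : ℝ | √T < |s|}, kk X s * |σ * (c - (zc (Ico (t + s) (t + s + 2 * h)) : ℝ))| ≤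
      P * (C2 * √T ^ (-(1 / 2) : ℝ)) := by
    rw [integral_eq_lintegral_of_nonneg_ae]
    · rw [← ENNReal.toReal_ofReal h3]
      exact ENNReal.toReal_mono ENNReal.ofReal_ne_top h2
    · exact Eventually.of_forall fun s => mul_nonneg (kk_nonneg hX0 s) (abs_nonneg _)
    · apply Measurable.aestronglyMeasurable
      apply (kk_meas X).mul
      apply Measurable.abs
      apply Measurable.const_mul
      exact measurable_const.sub ((zcm h).comp (measurable_const_add t))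
  refine h4.trans ?_
  have h5 : (√T) ^ (-(1 / 2) : ℝ) = T ^ (-(1 / 4) : ℝ) := by
    rw [Real.sqrt_eq_rpow, ← Real.rpow_mul hT0.le]
    norm_num
  have h6 : T ^ (1 / 16 : ℝ) * T ^ (-(1 / 4) : ℝ) = T ^ (-(3 / 16) : ℝ) := by
    rw [← Real.rpow_add hT0]
    norm_num
  rw [h5]
  calc P * (C2 * T ^ (-(1 / 4) : ℝ)) = (16 + 16 * Cz * 8) * C2 * (T ^ (1 / 16 : ℝ) * T ^ (-(1 / 4) : ℝ)) := by
        rw [hP]
        ring
    _ ≤ ρ := by
        rw [h6]
        exact (hT4 T hT.1).le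

/-- the two ends and the shift cost at most `2 √T` -/
private lemma ends {T V a b : ℝ} {f : ℝ → ℝ} (hT : 0 ≤ T) (ha : 0 ≤ a) (hab : a + 2 * √T ≤ b)
    (h : ENNReal.ofReal b ≤ volume {t : ℝ | T - √T ≤ t ∧ t ≤ 2 * T + √T ∧ V ≤ f t}) :
    ENNReal.ofReal a ≤ volume {t : ℝ | T ≤ t ∧ t ≤ 2 * T ∧ V ≤ f t} := by
  have hs := Real.sqrt_nonneg T
  have h1 : {t : ℝ | T - √T ≤ t ∧ t ≤ 2 * T + √T ∧ V ≤ f t} ⊆
      (Icc (T - √T) T ∪ Icc (2 * T) (2 * T + √T)) ∪ {t : ℝ | T ≤ t ∧ t ≤ 2 * T ∧ V ≤ f t} := by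
    intro t ht
    rw [mem_ofPred_eq] at ht
    by_cases h2 : t ≤ T
    · exact Or.inl (Or.inl ⟨ht.1, h2⟩)
    · by_cases h3 : 2 * T ≤ t
      · exact Or.inl (Or.inr ⟨h3, ht.2.1⟩)
      · exact Or.inr ⟨(not_le.1 h2).le, (not_le.1 h3).le, ht.2.2⟩
  have h2 : volume (Icc (T - √T) T ∪ Icc (2 * T) (2 * T + √T)) ≤ ENNReal.ofReal (2 * √T) := by
    refine (measure_union_le _ _).trans ?_
    rw [Real.volume_Icc, Real.volume_Icc, ← ENNReal.ofReal_add (by linarith) (by linarith)]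
    apply ENNReal.ofReal_le_ofReal
    linarith
  have h3 : ENNReal.ofReal a + ENNReal.ofReal (2 * √T) ≤
      volume {t : ℝ | T ≤ t ∧ t ≤ 2 * T ∧ V ≤ f t} + ENNReal.ofReal (2 * √T) := by
    rw [← ENNReal.ofReal_add ha (by positivity)]
    calc ENNReal.ofReal (a + 2 * √T) ≤ ENNReal.ofReal b := ENNReal.ofReal_le_ofReal hab
      _ ≤ _ := h
      _ ≤ _ := measure_mono h1
      _ ≤ volume (Icc (T - √T) T ∪ Icc (2 * T) (2 * T + √T)) + volume {t : ℝ | T ≤ t ∧ t ≤ 2 * T ∧ V ≤ f t} :=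
          measure_union_le _ _
      _ ≤ _ := by
          rw [add_comm]
          gcongr
  exact (ENNReal.add_le_add_iff_right ENNReal.ofReal_ne_top).1 h3

/-- the shift of the set of XS -/
private lemma shift {T V a b h : ℝ} {g : ℝ → ℝ} (ha : 0 ≤ a) (hh : 0 ≤ h) (hab : a + h ≤ b)
    (h0 : ENNReal.ofReal b ≤ volume {t : ℝ | T ≤ t ∧ t ≤ 2 * T ∧ V ≤ g t}) :
    ENNReal.ofReal a ≤ volume {t : ℝ | T ≤ t ∧ t ≤ 2 * T ∧ V ≤ g (t + h)} := by
  have h1 : {t : ℝ | T ≤ t ∧ t ≤ 2 * T ∧ V ≤ g t} ⊆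
      Icc T (T + h) ∪ (fun t => t + -h) ⁻¹' {t : ℝ | T ≤ t ∧ t ≤ 2 * T ∧ V ≤ g (t + h)} := by
    intro t ht
    rw [mem_ofPred_eq] at ht
    by_cases h2 : t ≤ T + h
    · exact Or.inl ⟨ht.1, h2⟩
    · right
      rw [mem_preimage, mem_ofPred_eq]
      refine ⟨by linarith [not_le.1 h2], by linarith [ht.2.1], ?_⟩
      rw [neg_add_cancel_right]
      exact ht.2.2
  have h3 : ENNReal.ofReal a + ENNReal.ofReal h ≤
      volume {t : ℝ | T ≤ t ∧ t ≤ 2 * T ∧ V ≤ g (t + h)} + ENNReal.ofReal h := by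
    rw [← ENNReal.ofReal_add ha hh]
    calc ENNReal.ofReal (a + h) ≤ ENNReal.ofReal b := ENNReal.ofReal_le_ofReal hab
      _ ≤ _ := h0
      _ ≤ _ := measure_mono h1
      _ ≤ volume (Icc T (T + h)) + volume ((fun t => t + -h) ⁻¹' {t : ℝ | T ≤ t ∧ t ≤ 2 * T ∧ V ≤ g (t + h)}) :=
          measure_union_le _ _
      _ ≤ _ := by
          rw [measure_preimage_add_right, Real.volume_Icc, add_sub_cancel_left, add_comm]
  exact (ENNReal.add_le_add_iff_right ENNReal.ofReal_ne_top).1 h3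

/-- the conditions on `T` -/
private lemma big {A c₁ M : ℝ} (hA : 0 < A) (hc₁ : 0 < c₁) (hM : 0 < M) : ∃ T₀ : ℝ, ∀ T : ℝ, T₀ ≤ T →
    16 ≤ T ∧ M ≤ T ^ (3 / 8 : ℝ) ∧ 0 < Real.log T ∧ ∀ c : ℝ, c ≤ c₁ * (Real.log T / Real.log (Real.log T)) →
      8 * (A * c) ≤ Real.log T := by
  have h1 : ∀ᶠ T : ℝ in atTop, 8 * A * c₁ + 1 ≤ Real.log (Real.log T) :=
    (Real.tendsto_log_atTop.comp Real.tendsto_log_atTop).eventually_ge_atTop _
  have h2 : ∀ᶠ T : ℝ in atTop, M ≤ T ^ (3 / 8 : ℝ) := (tendsto_rpow_atTop (by norm_num)).eventually_ge_atTop _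
  have h3 : ∀ᶠ T : ℝ in atTop, 16 ≤ T := eventually_ge_atTop _
  have h4 : ∀ᶠ T : ℝ in atTop, 0 < Real.log T := Real.tendsto_log_atTop.eventually_gt_atTop _
  obtain ⟨T₀, hT₀⟩ := (h1.and (h2.and (h3.and h4))).exists_forall_of_atTop
  refine ⟨T₀, fun T hT => ?_⟩
  obtain ⟨g1, g2, g3, g4⟩ := hT₀ T hT
  refine ⟨g3, g2, g4, fun c hc => ?_⟩
  have hll : 0 < Real.log (Real.log T) := by
    have : 0 < 8 * A * c₁ := by positivity
    linarith
  have h5 : 8 * (A * c) ≤ 8 * (A * (c₁ * (Real.log T / Real.log (Real.log T)))) := by gcongr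
  refine h5.trans ?_
  rw [show 8 * (A * (c₁ * (Real.log T / Real.log (Real.log T)))) =
    8 * A * c₁ * Real.log T / Real.log (Real.log T) by ring, div_le_iff₀ hll]
  nlinarith

private lemma sqrt_log_le {c : ℝ} (hc3 : 3 ≤ c) : √(Real.log (2 + c)) ≤ 2 * √(Real.log c) := by
  have e1 : Real.log (2 + c) ≤ 4 * Real.log c := by
    have e2 : 2 + c ≤ c ^ 4 := by
      have e3 : 9 ≤ c ^ 2 := by nlinarith
      have e4 : c ≤ c ^ 2 := by nlinarith
      have e5 : c ^ 4 = c ^ 2 * c ^ 2 := by ring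
      have e6 : 9 * c ^ 2 ≤ c ^ 2 * c ^ 2 := mul_le_mul_of_nonneg_right e3 (by positivity)
      linarith
    have e7 := Real.log_le_log (by linarith) e2
    rw [Real.log_pow] at e7
    exact_mod_cast e7
  have e3 : √(4 * Real.log c) = 2 * √(Real.log c) := by
    rw [Real.sqrt_mul (by norm_num), show (4 : ℝ) = 2 ^ 2 by norm_num, Real.sqrt_sq (by norm_num)]
  rw [← e3]
  exact Real.sqrt_le_sqrt e1

/-- the exponents -/
private lemma expo {ε W E₀ E : ℝ} {N q : ℕ} (hε : 0 < ε) (hW : 0 ≤ W) (hN : (Real.pi ^ 2 / 2 + ε / 2) / (ε / 2) ≤ N)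
    (hq : q = N + 2) (hE₀ : E₀ = (Real.pi ^ 2 / 2 + ε / 2) * W) (hE : E = (Real.pi ^ 2 / 2 + ε) * W) :
    Real.exp (-E) / 4 ≤ (Real.exp (-E₀) / 2) ^ ((2 * q - 1 : ℝ) / (2 * q - 2)) ∧ 0 ≤ (q : ℝ) / (q - 1) := by
  have hqN : (q : ℝ) = N + 2 := by rw [hq]; push_cast; ring
  have hN0 : (0 : ℝ) ≤ N := Nat.cast_nonneg _
  have ha1 : (2 * q - 1 : ℝ) / (2 * q - 2) = 1 + 1 / (2 * N + 2) := by
    have h2 : (2 * (N : ℝ) + 2) ≠ 0 := by positivity
    rw [hqN, show 2 * ((N : ℝ) + 2) - 1 = 2 * N + 2 + 1 by ring, show 2 * ((N : ℝ) + 2) - 2 = 2 * N + 2 by ring, add_div,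
      div_self h2]
  set a : ℝ := (2 * q - 1 : ℝ) / (2 * q - 2) with ha
  have ha2 : a ≤ 2 := by
    rw [ha1]
    have : (1 : ℝ) / (2 * N + 2) ≤ 1 := by
      rw [div_le_one (by positivity)]
      linarith
    linarith
  have haE : a * E₀ ≤ E := by
    have e1 : a * (Real.pi ^ 2 / 2 + ε / 2) ≤ Real.pi ^ 2 / 2 + ε := by
      rw [ha1]
      have e2 : 1 / (2 * (N : ℝ) + 2) * (Real.pi ^ 2 / 2 + ε / 2) ≤ ε / 2 := by
        rw [one_div_mul_eq_div, div_le_iff₀ (by positivity)]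
        rw [div_le_iff₀ (by linarith)] at hN
        have e3 : 0 ≤ (N : ℝ) * ε := mul_nonneg hN0 hε.le
        linarith
      linarith
    calc a * E₀ = a * (Real.pi ^ 2 / 2 + ε / 2) * W := by rw [hE₀]; ring
      _ ≤ E := by rw [hE]; exact mul_le_mul_of_nonneg_right e1 hW
  constructor
  · rw [Real.div_rpow (Real.exp_pos _).le (by norm_num), ← Real.exp_mul]
    have e1 : (2 : ℝ) ^ a ≤ 4 := by
      calc (2 : ℝ) ^ a ≤ 2 ^ (2 : ℝ) := Real.rpow_le_rpow_of_exponent_le (by norm_num) ha2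
        _ = 4 := by norm_num
    have e2 : Real.exp (-E) ≤ Real.exp (-E₀ * a) := by
      rw [Real.exp_le_exp]
      linarith
    calc Real.exp (-E) / 4 ≤ Real.exp (-E₀ * a) / 4 := by gcongr
      _ ≤ Real.exp (-E₀ * a) / 2 ^ a := by gcongr
  · rw [hqN]
    have : (0 : ℝ) ≤ (N : ℝ) + 2 - 1 := by linarith
    positivity

/-- the last inequality -/
private lemma fin_bd {T E M x y : ℝ} (hM : 0 < M) (hT : 0 < T) (hx : 1 ≤ x) (hy : Real.exp (-E) / 4 ≤ y)
    (hk : 16 * (M + 1) * √T ≤ Real.exp (-E) * T) :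
    Real.exp (-(Real.log (8 * (M + 1)) + E)) * T + 2 * √T ≤ x * (1 / (M + 1)) * y * T := by
  have e1 : Real.exp (-(Real.log (8 * (M + 1)) + E)) = Real.exp (-E) / (8 * (M + 1)) := by
    rw [neg_add, Real.exp_add, Real.exp_neg, Real.exp_log (by positivity)]
    field_simp
  have e2 : 2 * √T ≤ Real.exp (-E) / (8 * (M + 1)) * T := by
    rw [div_mul_eq_mul_div, le_div_iff₀ (by positivity)]
    linarith
  have e3 : Real.exp (-E) / (8 * (M + 1)) * T + Real.exp (-E) / (8 * (M + 1)) * T = 1 * (1 / (M + 1)) * (Real.exp (-E) / 4) * T := by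
    field_simp
    ring
  rw [e1]
  calc Real.exp (-E) / (8 * (M + 1)) * T + 2 * √T ≤ 1 * (1 / (M + 1)) * (Real.exp (-E) / 4) * T := by linarith
    _ ≤ _ := by gcongr

/-- DX1 -/
theorem dx1_of_step (hD : SmoothStep) (h1 : XS) (h2 : TX1) : DX1 := by
  intro ε hε
  have hpi := Real.pi_gt_three
  have hpi4 := Real.pi_lt_four
  obtain ⟨K, η, ρ, c₀, c₁, T₁, hK, hη, hρ, hc₁, hXS⟩ := h1 (ε / 2) (by linarith)
  obtain ⟨N, hN⟩ := exists_nat_ge ((Real.pi ^ 2 / 2 + ε / 2) / (ε / 2))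
  set q : ℕ := N + 2 with hq
  obtain ⟨M, d, T₂, hM, hd, hTX⟩ := h2 q
  set ρ' : ℝ := min ρ 1 with hρ'
  have hρ'0 : 0 < ρ' := lt_min hρ one_pos
  have hρ'1 : ρ' ≤ 1 := min_le_right _ _
  have hρ'ρ : ρ' ≤ ρ := min_le_left _ _
  obtain ⟨T₃, hfar⟩ := far_small (ρ := ρ' / 2) (by linarith)
  set A : ℝ := Real.pi ^ 2 / 2 + ε with hA
  have hA4 : 4 ≤ A := by rw [hA]; nlinarith
  set c₂ : ℝ := min c₁ d with hc₂
  have hc₂0 : 0 < c₂ := lt_min hc₁ hd
  obtain ⟨T₄, hbig⟩ := big (A := A) (c₁ := c₂) (M := 16 * (M + 1)) (by linarith) hc₂0 (by linarith)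
  refine ⟨max K (max 1 (4 / ρ')), Real.log (8 * (M + 1)), min η (Real.exp (-1)), max c₀ 3, c₂,
    max (max T₁ T₂) (max T₃ T₄), lt_of_lt_of_le hK (le_max_left _ _), Real.log_pos (by linarith),
    lt_min hη (Real.exp_pos _), hc₂0, ?_⟩
  intro T hT c V σ hc hcT hVK hVη hσ
  rw [max_le_iff, max_le_iff, max_le_iff] at hT
  obtain ⟨⟨hT1, hT2⟩, hT3, hT4⟩ := hT
  obtain ⟨hT16, hTM, hL, hcL⟩ := hbig T hT4
  have hcA := hcL c hcT
  rw [max_le_iff] at hc
  obtain ⟨hcc₀, hc3⟩ := hc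
  have hT0 : 0 < T := by linarith
  have hc0 : 0 < c := by linarith
  have h4c : 4 * c ≤ A * c := mul_le_mul_of_nonneg_right hA4 hc0.le
  have hcL1 : 32 * c ≤ Real.log T := by linarith
  have hr0 : 0 ≤ Real.log T / Real.log (Real.log T) := by
    by_contra hneg
    have : c₂ * (Real.log T / Real.log (Real.log T)) ≤ 0 := mul_nonpos_of_nonneg_of_nonpos hc₂0.le (not_le.1 hneg).le
    linarith
  have hcT1 : c ≤ c₁ * (Real.log T / Real.log (Real.log T)) :=
    hcT.trans (mul_le_mul_of_nonneg_right (min_le_left _ _) hr0)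
  have hcTd : c ≤ d * (Real.log T / Real.log (Real.log T)) :=
    hcT.trans (mul_le_mul_of_nonneg_right (min_le_right _ _) hr0)
  have hlc1 : 1 ≤ Real.log c := by
    rw [Real.le_log_iff_exp_le hc0]
    linarith [Real.exp_one_lt_d9]
  have hslc : 1 ≤ √(Real.log c) := Real.one_le_sqrt.2 hlc1
  have hVK1 : K * √(Real.log c) ≤ V := (mul_le_mul_of_nonneg_right (le_max_left _ _) (by positivity)).trans hVK
  have hVK2 : √(Real.log c) ≤ V := by
    refine le_trans ?_ hVK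
    refine le_mul_of_one_le_left (by positivity) ?_
    exact (le_max_left _ _).trans (le_max_right _ _)
  have hVK3 : 4 / ρ' * √(Real.log c) ≤ V :=
    (mul_le_mul_of_nonneg_right ((le_max_right _ _).trans (le_max_right _ _)) (by positivity)).trans hVK
  have hV1 : 1 ≤ V := hslc.trans hVK2
  have hVη1 : V ≤ η * √c := hVη.trans (mul_le_mul_of_nonneg_right (min_le_left _ _) (by positivity))
  have hVη2 : V ≤ Real.exp (-1) * √c := hVη.trans (mul_le_mul_of_nonneg_right (min_le_right _ _) (by positivity))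
  have hV2 : V ^ 2 ≤ Real.exp (-2) * c := by
    calc V ^ 2 ≤ (Real.exp (-1) * √c) ^ 2 := pow_le_pow_left₀ (by linarith) hVη2 2
      _ = Real.exp (-2) * c := by
          rw [mul_pow, Real.sq_sqrt hc0.le, ← Real.exp_nat_mul]
          norm_num
  have hV20 : 0 < V ^ 2 := by positivity
  have hΛ : 1 ≤ Real.log (c / V ^ 2) := by
    rw [Real.le_log_iff_exp_le (by positivity), le_div_iff₀ hV20]
    calc Real.exp 1 * V ^ 2 ≤ Real.exp 1 * (Real.exp (-2) * c) := by gcongr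
      _ = Real.exp (-1) * c := by rw [← mul_assoc, ← Real.exp_add]; norm_num
      _ ≤ 1 * c := by
          refine mul_le_mul_of_nonneg_right ?_ hc0.le
          rw [Real.exp_le_one_iff]
          norm_num
      _ = c := one_mul c
  have hV2c : V ^ 2 ≤ c := by
    refine hV2.trans ?_
    calc Real.exp (-2) * c ≤ 1 * c := by
          refine mul_le_mul_of_nonneg_right ?_ hc0.le
          rw [Real.exp_le_one_iff]
          norm_num
      _ = c := one_mul c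
  set Λ : ℝ := Real.log (c / V ^ 2) with hΛd
  have hΛ0 : 0 < Λ := by linarith
  obtain ⟨m, hm1, hmc, hvol⟩ := hXS T hT1 c V σ hcc₀ hcT1 hVK1 hVη1 hσ
  set E₀ : ℝ := (Real.pi ^ 2 / 2 + ε / 2) * V ^ 2 / Λ with hE₀
  set E : ℝ := A * V ^ 2 / Λ with hE
  have hE₀0 : 0 ≤ E₀ := by positivity
  have hE₀E : E₀ ≤ E := by
    rw [hE₀, hE, hA]
    gcongr
    linarith
  have hEc : E ≤ A * c := by
    rw [hE, div_le_iff₀ hΛ0]
    calc A * V ^ 2 ≤ A * c := by gcongr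
      _ ≤ A * c * Λ := le_mul_of_one_le_right (by positivity) hΛ
  have hEL : E ≤ Real.log T / 8 := by linarith
  have hET : T ^ (-(1 / 8) : ℝ) ≤ Real.exp (-E) := by
    rw [Real.rpow_def_of_pos hT0, Real.exp_le_exp]
    linarith
  -- the window and the kernel
  set h : ℝ := HH T c with hh
  have hh' : c * sp T = 2 * h := by
    rw [hh]
    unfold sp HH
    ring
  have hh0 : 0 < h := by
    rw [hh]
    unfold HH
    positivity
  have hh1 : h ≤ 1 := by
    rw [hh]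
    unfold HH
    rw [div_le_one hL]
    have := mul_le_mul_of_nonneg_right hpi4.le hc0.le
    linarith
  have hm0 : 0 < m := by linarith
  set X : ℝ := XX T m with hX
  have hX1 : 1 ≤ X := by
    rw [hX]
    unfold XX
    rw [le_div_iff₀ hm0, one_mul]
    linarith
  have hX0 : 0 < X := by linarith
  set f : ℝ → ℝ := fun u => σ * (c - (zc (Ico u (u + 2 * h)) : ℝ)) with hf
  have hfm : Measurable f := (measurable_const.sub (zcm h)).const_mul σ
  obtain ⟨hki0, hk10, -⟩ := Pool.Agent.Helper24.UG.qk_mass hX0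
  have hki : Integrable (kk X) := hki0
  have hk1 : ∫ s, kk X s = 1 := hk10
  have hkf1 : ∀ t s, kk X s * f (t + s) = σ * (c * kk X s) - σ * (kk X s * (zc (Ico (t + s) (t + s + 2 * h)) : ℝ)) := by
    intro t s
    rw [hf]
    ring
  have hkf : ∀ t, Integrable fun s => kk X s * f (t + s) := by
    intro t
    simp_rw [hkf1 t]
    exact ((hki.const_mul c).const_mul σ).sub ((kk_win hX0 hh0 t).1.const_mul σ)
  have hAW : ∀ t, ∫ s, kk X s * f (t + s) = σ * (c - AW T c m (t + h)) := by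
    intro t
    simp_rw [hkf1 t]
    rw [integral_sub ((hki.const_mul c).const_mul σ) ((kk_win hX0 hh0 t).1.const_mul σ), integral_const_mul,
      integral_const_mul, integral_const_mul, (kk_win hX0 hh0 t).2]
    rw [hk1]
    unfold AW
    rw [← hX, ← hh]
    ring
  have habs : ∀ u, |f u| = |(zc (Ico u (u + c * sp T)) : ℝ) - c| := by
    intro u
    rw [hf, hh']
    simp only
    rw [abs_mul, abs_sub_comm]
    rcases hσ with g | g <;> simp [g]
  obtain ⟨hmi, hmb⟩ := hTX T hT2 c (by linarith) hcTd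
  simp_rw [← habs] at hmi hmb
  set S : ℝ := √(Real.log (2 + c)) with hS
  have hl2c : 0 < Real.log (2 + c) := Real.log_pos (by linarith)
  have hS0 : 0 < S := Real.sqrt_pos.2 hl2c
  have hSq : S ^ (2 * q) = Real.log (2 + c) ^ q := by
    rw [hS, pow_mul, Real.sq_sqrt hl2c.le]
  have hmb' : ∫ t in Icc (T / 2) (3 * T), |f t| ^ (2 * q) ≤ M * S ^ (2 * q) * T := by rw [hSq]; exact hmb
  have hS2 : S ≤ 2 * √(Real.log c) := sqrt_log_le hc3
  have hbase : 1 ≤ ρ' * V / (2 * S) := by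
    rw [le_div_iff₀ (by positivity), one_mul]
    have e1 : 4 * √(Real.log c) ≤ ρ' * V := by
      have e2 := mul_le_mul_of_nonneg_left hVK3 hρ'0.le
      have e3 : ρ' * (4 / ρ' * √(Real.log c)) = 4 * √(Real.log c) := by field_simp
      linarith
    linarith
  -- the set
  set G : Set ℝ := {t : ℝ | T ≤ t ∧ t ≤ 2 * T ∧ (1 + ρ) * V ≤ σ * (c - AW T c m (t + h))} with hG
  have hGm : MeasurableSet G := by
    have e1 : Measurable fun t => σ * (c - AW T c m (t + h)) := by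
      apply Measurable.const_mul
      exact measurable_const.sub (kk_win_meas hX0 hh0)
    have e2 : G = Icc T (2 * T) ∩ {t : ℝ | (1 + ρ) * V ≤ σ * (c - AW T c m (t + h))} := by
      ext t
      simp only [hG, mem_ofPred_eq, mem_inter_iff, mem_Icc, and_assoc]
    rw [e2]
    exact measurableSet_Icc.inter (measurableSet_le measurable_const e1)
  have hGT : G ⊆ Icc T (2 * T) := fun t ht => ⟨ht.1, ht.2.1⟩
  have hdev : ∀ t ∈ G, (1 + ρ') * V ≤ ∫ s, kk X s * f (t + s) := by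
    intro t ht
    rw [hAW]
    refine le_trans ?_ ht.2.2
    exact mul_le_mul_of_nonneg_right (by linarith) (by linarith)
  set p : ℝ := Real.exp (-E₀) / 2 with hp
  have hp0 : 0 < p := by positivity
  have hexpE₀ : Real.exp (-E₀) ≤ 1 := Real.exp_le_one_iff.2 (by linarith)
  have hp1 : p ≤ 1 := by rw [hp]; linarith
  have hEE : Real.exp (-E) ≤ Real.exp (-E₀) := Real.exp_le_exp.2 (by linarith)
  have hsT : √T * √T = T := Real.mul_self_sqrt hT0.le
  have hs1 : 1 ≤ √T := Real.one_le_sqrt.2 (by linarith)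
  have hkey : 16 * (M + 1) ≤ Real.exp (-E) * √T := by
    calc 16 * (M + 1) ≤ T ^ (3 / 8 : ℝ) := hTM
      _ = T ^ (-(1 / 8) : ℝ) * √T := by
          rw [Real.sqrt_eq_rpow, ← Real.rpow_add hT0]
          norm_num
      _ ≤ Real.exp (-E) * √T := by gcongr
  have hkey2 : 16 * (M + 1) * √T ≤ Real.exp (-E) * T := by
    calc 16 * (M + 1) * √T ≤ Real.exp (-E) * √T * √T := by gcongr
      _ = Real.exp (-E) * T := by rw [mul_assoc, hsT]
  have hpT : p * T + h ≤ Real.exp (-E₀) * T := by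
    have e1 : Real.exp (-E) * T ≤ Real.exp (-E₀) * T := by gcongr
    have e2 : 16 * (0 + 1) * 1 ≤ 16 * (M + 1) * √T := by gcongr
    rw [hp]
    linarith
  have hpG : ENNReal.ofReal (p * T) ≤ volume G := shift (g := fun t => σ * (c - AW T c m t)) (by positivity) hh0.le hpT hvol
  have hq2 : 2 ≤ q := by omega
  have hρV : ρ' / 2 ≤ ρ' * V / 2 := by
    have := le_mul_of_one_le_right hρ'0.le hV1
    linarith
  have hcL2 : c ≤ Real.log T := by linarith
  have hstep := hD (q := q) hT16 hX1 hV1 hρ'0 hρ'1 hS0 hM hq2 f hfm (kk X) (kk_meas X) (kk_nonneg hX0) hki hk1 hkf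
    (fun t g1 g2 => (hfar T hT3 X h c σ hX1 hh0.le hh1 hc0.le hcL2 hσ t g1 g2).trans hρV) hmi hmb' G hGm hGT hdev
    hp0 hp1 hpG
  obtain ⟨hpa, hqq⟩ := expo (q := q) (W := V ^ 2 / Λ) hε (by positivity) hN hq (E₀ := E₀) (E := E) (by rw [hE₀]; ring)
    (by rw [hE, hA]; ring)
  have hfin := fin_bd hM hT0 (Real.one_le_rpow hbase hqq) hpa hkey2
  have hres := ends hT0.le (by positivity) hfin hstep
  have e5 : {t : ℝ | T ≤ t ∧ t ≤ 2 * T ∧ V ≤ σ * (c - (zc (Ico t (t + c * sp T)) : ℝ))} =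
      {t : ℝ | T ≤ t ∧ t ≤ 2 * T ∧ V ≤ f t} := by
    rw [hh']
  rw [e5]
  exact hres

end Pool.Agent.Helper80.UX
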